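import Pool.Agent.V11181.Flags3

/-!
# Simultaneous generation of complete flags over arbitrary fields

For every field `K` and every `m` the number `μ_K(m, d)` equals `μ(m, d)` for all large `d`.
-/

set_option autoImplicit false

namespace Pool.Agent.Results.MP_7b57dc_co.AllFields

open Finset Pool.Agent.V11181

universe u

/-- The function `μ(m, d)`: it is `d` if `m = 1` or `d = 1`, it is `m d / 2` if `m` is even and
`d ≥ 2`, and it is `(m d - d) / 2 + ⌊2 d / 3⌋` if `m ≥ 3` is odd and `d ≥ 2`. -/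
def mu (m d : ℕ) : ℕ :=
  if m = 1 ∨ d = 1 then d else if Even m then m * d / 2 else (m * d - d) / 2 + 2 * d / 3

theorem ub_zero (K : Type u) [Field K] (d : ℕ) (F : Fin 0 → Flag K d) :
    ∃ S : Finset (Fin d → K), S.card ≤ 0 ∧ ∀ i, (F i).GeneratedBy S :=
  ⟨∅, by simp, fun i => i.elim0⟩

theorem ub_add_two {K : Type u} [Field K] {d m c : ℕ}
    (h : ∀ F : Fin m → Flag K d, ∃ S : Finset (Fin d → K), S.card ≤ c ∧ ∀ i, (F i).GeneratedBy S)
    (F : Fin (m + 2) → Flag K d) :
    ∃ S : Finset (Fin d → K), S.card ≤ c + d ∧ ∀ i, (F i).GeneratedBy S := by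
  classical
  obtain ⟨S, hS, hSg⟩ := h fun i => F (i.castAdd 2)
  obtain ⟨S', hS', h1, h2⟩ := two_flags (F ⟨m, by omega⟩) (F ⟨m + 1, by omega⟩)
  refine ⟨S ∪ S', (card_union_le _ _).trans (add_le_add hS hS'), fun i => ?_⟩
  rw [Flag.lev_iff_generated]
  intro j hj
  by_cases hi : i.1 < m
  · obtain ⟨v, hv, hl⟩ := ((F _).lev_iff_generated S).1 (hSg ⟨i.1, hi⟩) j hj
    exact ⟨v, mem_union_left _ hv, hl⟩
  · by_cases hi2 : i.1 = m
    · have e : i = ⟨m, by omega⟩ := Fin.ext hi2
      obtain ⟨v, hv, hl⟩ := h1 j hj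
      rw [e]
      exact ⟨v, mem_union_right _ hv, hl⟩
    · have e : i = ⟨m + 1, by omega⟩ := Fin.ext (by have := i.2; show i.1 = m + 1; omega)
      obtain ⟨v, hv, hl⟩ := h2 j hj
      rw [e]
      exact ⟨v, mem_union_right _ hv, hl⟩

theorem ub_even {K : Type u} [Field K] {d : ℕ} (k : ℕ) (F : Fin (2 * k) → Flag K d) :
    ∃ S : Finset (Fin d → K), S.card ≤ k * d ∧ ∀ i, (F i).GeneratedBy S := by
  induction k with
  | zero =>
    obtain ⟨S, hS, hS'⟩ := ub_zero K d F
    exact ⟨S, by simpa using hS, hS'⟩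
  | succ k ih =>
    obtain ⟨S, hS, hS'⟩ := ub_add_two ih F
    exact ⟨S, by rw [add_mul, one_mul]; exact hS, hS'⟩

theorem ub_three {K : Type u} [Field K] {d : ℕ} (F : Fin 3 → Flag K d) :
    ∃ S : Finset (Fin d → K), S.card ≤ d + 2 * d / 3 ∧ ∀ i, (F i).GeneratedBy S := by
  obtain ⟨S, hS, h⟩ := three_flags F
  exact ⟨S, hS, fun i => ((F i).lev_iff_generated S).2 fun j hj => h i j hj⟩

theorem ub_odd {K : Type u} [Field K] {d : ℕ} (k : ℕ) (F : Fin (2 * k + 3) → Flag K d) :
    ∃ S : Finset (Fin d → K), S.card ≤ (k + 1) * d + 2 * d / 3 ∧ ∀ i, (F i).GeneratedBy S := by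
  induction k with
  | zero =>
    obtain ⟨S, hS, hS'⟩ := ub_three F
    exact ⟨S, by simpa using hS, hS'⟩
  | succ k ih =>
    obtain ⟨S, hS, hS'⟩ := ub_add_two ih F
    refine ⟨S, hS.trans ?_, hS'⟩
    have : (k + 1 + 1) * d = (k + 1) * d + d := by ring
    omega

theorem lower_one {K : Type u} [Field K] {d : ℕ} (F : Flag K d) (S : Finset (Fin d → K))
    (h : F.GeneratedBy S) : d ≤ S.card := by
  classical
  have h1 := (F.lev_iff_generated S).1 h
  choose! e he hl using h1
  have h2 : (univ : Finset (Fin d)).card ≤ S.card := by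
    apply card_le_card_of_injOn (fun i : Fin d => e i.1)
    · intro i _
      exact he i.1 i.2
    · intro i _ j _ hij
      have hi := hl i.1 i.2
      have hj := hl j.1 j.2
      simp only at hij
      rw [← hij] at hj
      exact Fin.ext (F.lev_unique i.2 j.2 hi hj)
  rwa [card_univ, Fintype.card_fin] at h2

/-- **Theorem.** For every field `K` and every `m ≥ 1` there is `d₀` such that for every `d ≥ d₀`
the number `mu m d` is the least `n` such that every `m`-tuple of complete flags in `K ^ d` is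
simultaneously generated by some set of at most `n` vectors. -/
theorem result :
    ∀ (K : Type u) [Field K] (m : ℕ), 1 ≤ m → ∃ d₀ : ℕ, ∀ d, d₀ ≤ d →
      IsLeast {n : ℕ | ∀ F : Fin m → Flag K d, ∃ S : Finset (Fin d → K),
        S.card ≤ n ∧ ∀ i, (F i).GeneratedBy S} (mu m d) := by
  intro K _ m hm
  refine ⟨3 * m + 3, fun d hd => ?_⟩
  have hd1 : d ≠ 1 := by omega
  constructor
  · -- upper bound
    intro F
    by_cases hm1 : m = 1
    · subst hm1
      obtain ⟨S, hS, h1, -⟩ := two_flags (F 0) (F 0)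
      refine ⟨S, ?_, fun i => ?_⟩
      · unfold mu
        rw [if_pos (Or.inl rfl)]
        exact hS
      · have : i = 0 := Subsingleton.elim _ _
        rw [this]
        exact ((F 0).lev_iff_generated S).2 h1
    · unfold mu
      rw [if_neg (by omega)]
      rcases Nat.even_or_odd' m with ⟨k, hk | hk⟩
      · subst hk
        rw [if_pos (even_two_mul k)]
        obtain ⟨S, hS, h⟩ := ub_even k F
        refine ⟨S, hS.trans (le_of_eq ?_), h⟩
        rw [mul_assoc, Nat.mul_div_cancel_left _ (by norm_num)]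
      · obtain ⟨l, rfl⟩ : ∃ l, k = l + 1 := ⟨k - 1, by omega⟩
        have e : m = 2 * l + 3 := by omega
        subst e
        rw [if_neg (by rw [Nat.not_even_iff_odd]; exact ⟨l + 1, by ring⟩)]
        obtain ⟨S, hS, h⟩ := ub_odd l F
        refine ⟨S, hS.trans (le_of_eq ?_), h⟩
        congr 1
        have : (2 * l + 3) * d - d = 2 * ((l + 1) * d) := by
          have h1 : (2 * l + 3) * d = 2 * ((l + 1) * d) + d := by ring
          omega
        rw [this, Nat.mul_div_cancel_left _ (by norm_num)]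
  · -- lower bound
    intro n hn
    by_cases hm1 : m = 1
    · subst hm1
      obtain ⟨S, hS, h⟩ := hn fun _ => flagOf (LinearEquiv.refl K (Fin d → K))
      have h1 := lower_one _ S (h 0)
      unfold mu
      rw [if_pos (Or.inl rfl)]
      omega
    · obtain ⟨E, hE⟩ : ∃ E, E = (d + 2) / 3 := ⟨_, rfl⟩
      obtain ⟨w, hw⟩ : ∃ w, w = d - 2 * E := ⟨_, rfl⟩
      have hwE : w ≤ E := by omega
      have hdE : d = E + w + E := by omega
      obtain ⟨T, hT1, hT2⟩ := exists_ops K m E (by omega)
      subst hdE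
      obtain ⟨S, hS, h⟩ := hn fun i => flagOf (shear hwE (T i))
      have h1 := lower_bound hwE T hT1 hT2 S h
      refine le_trans ?_ (h1.trans hS)
      unfold mu
      rw [if_neg (by omega)]
      rcases Nat.even_or_odd' m with ⟨k, hk | hk⟩
      · subst hk
        rw [if_pos (even_two_mul k)]
        have e1 : 2 * k * (E + w + E) / 2 = k * (E + w + E) := by
          rw [mul_assoc, Nat.mul_div_cancel_left _ (by norm_num)]
        have e2 : (2 * k + 1) / 2 = k := by omega
        rw [e1, e2]
        have : k * (E + w + E) = 2 * k * E + w * k := by ring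
        omega
      · subst hk
        rw [if_neg (by rw [Nat.not_even_iff_odd]; exact ⟨k, rfl⟩)]
        have e1 : (2 * k + 1) * (E + w + E) - (E + w + E) = 2 * (k * (E + w + E)) := by
          have h1 : (2 * k + 1) * (E + w + E) = 2 * (k * (E + w + E)) + (E + w + E) := by ring
          omega
        have e2 : (2 * k + 1 + 1) / 2 = k + 1 := by omega
        rw [e1, Nat.mul_div_cancel_left _ (by norm_num), e2]
        have e3 : (2 * k + 1) * E + w * (k + 1) = k * (E + w + E) + E + w := by ring
        rw [e3]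
        omega

end Pool.Agent.Results.MP_7b57dc_co.AllFields
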